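import Mathlib
import Pool.Agent.H704R2.Action2

/-!
# Herman rings of `(x, y) ↦ (y, x + y ^ 2)` of every Diophantine rotation number which do not
# persist under dissipation (MP_77fc3d_an, Q1)

For every Diophantine `θ` (in particular for every `θ` of bounded type) the map `F 1` has a Herman
ring of rotation number `θ` which is isolated from all the Herman rings of all the dissipative maps
`F a`, `0 < |a| < 1`. The reason is that the action `∮ x dy` of a ring of a dissipative map must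
vanish, while the rings of `F 1` produced by the KAM theorem have nonzero action.
-/

set_option autoImplicit false

namespace Pool.Agent.Results.MP_77fc3d_an.NoNearbyRings

/-- The map `F_a (x, y) = (a y, x + y ^ 2)` of `ℂ × ℂ`. -/
def F (a : ℂ) (p : ℂ × ℂ) : ℂ × ℂ := (a * p.2, p.1 + p.2 ^ 2)

/-- `θ` is Diophantine: `|q θ - p| ≥ c / q ^ 2` for some `c > 0` and all integers `q ≠ 0` and `p`.
If `θ` is of bounded type, even `|q θ - p| ≥ c / |q|`. -/
def Diophantine (θ : ℝ) : Prop :=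
  ∃ c : ℝ, 0 < c ∧ ∀ q : ℤ, q ≠ 0 → ∀ p : ℤ, c / (q : ℝ) ^ 2 ≤ |q * θ - p|

/-- `φ`, on the annulus `{z ∈ ℂ/ℤ : |Im z| < h}` (a one-periodic map on the strip), is a Herman
ring of `T` with rotation number `θ`: `θ` is irrational, `n ≥ 2`, `φ` is holomorphic and
non-constant and `T^n (φ z) = φ (z + θ)`. -/
structure IsHermanRing (T : ℂ × ℂ → ℂ × ℂ) (θ h : ℝ) (φ : ℂ → ℂ × ℂ) (n : ℕ) : Prop where
  irrational : Irrational θ
  pos : 0 < h
  two_le : 2 ≤ n
  holomorphic : DifferentiableOn ℂ φ {z : ℂ | |z.im| < h}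
  periodic : ∀ z : ℂ, |z.im| < h → φ (z + 1) = φ z
  nonconstant : ∃ z z' : ℂ, |z.im| < h ∧ |z'.im| < h ∧ φ z ≠ φ z'
  invariant : ∀ z : ℂ, |z.im| < h → T^[n] (φ z) = φ (z + θ)

lemma Diophantine.irrational {θ : ℝ} (h : Diophantine θ) : Irrational θ := by
  obtain ⟨c, hc, h⟩ := h
  rintro ⟨r, hr⟩
  have hden : (r.den : ℤ) ≠ 0 := by exact_mod_cast r.den_nz
  have h1 := h r.den hden r.num
  have h2 : ((r.den : ℤ) : ℝ) * θ - (r.num : ℝ) = 0 := by
    rw [← hr]
    have := Rat.den_mul_eq_num r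
    have h3 : (((r.den : ℚ) * r : ℚ) : ℝ) = ((r.num : ℚ) : ℝ) := by rw [this]
    push_cast at h3 ⊢
    linarith
  rw [h2, abs_zero] at h1
  have h4 : 0 < c / (((r.den : ℤ) : ℝ)) ^ 2 := by
    have : (((r.den : ℤ) : ℝ)) ≠ 0 := by exact_mod_cast hden
    positivity
  linarith

/-- For every Diophantine `θ` the map `F 1` has a Herman ring `φ` of rotation number `θ`, such that
on every sub-annulus (`|Im z| < δ`) there is `ε > 0` for which no Herman ring of any of the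
dissipative maps `F a`, `0 < |a| < 1`, with any rotation number, is `ε`-close to `φ`. -/
theorem result (θ : ℝ) (hθ : Diophantine θ) :
    ∃ (h : ℝ) (φ : ℂ → ℂ × ℂ) (n : ℕ), IsHermanRing (F 1) θ h φ n ∧
      ∀ δ : ℝ, 0 < δ → δ ≤ h → ∃ ε : ℝ, 0 < ε ∧
        ∀ a : ℂ, a ≠ 0 → ‖a‖ < 1 → ∀ (θ' : ℝ) (ψ : ℂ → ℂ × ℂ) (m : ℕ),
          IsHermanRing (F a) θ' δ ψ m → ∃ z : ℂ, |z.im| < δ ∧ ε ≤ ‖ψ z - φ z‖ := by
  obtain ⟨c, hc, hθc⟩ := hθ
  obtain ⟨h, hh, φ, n, hn, p1, p2, p3, p4, p5⟩ :=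
    Pool.Agent.H704R2.Action.ring_action θ hc hθc
  have hF : F 1 = Pool.Agent.Helper649.H2 := by
    funext p
    simp [F, Pool.Agent.Helper649.H2]
  refine ⟨h, φ, n, ⟨Diophantine.irrational ⟨c, hc, hθc⟩, hh, hn, p1, fun z _ => p2 z, p3,
    fun z hz => ?_⟩, ?_⟩
  · rw [hF]; exact p4 z hz
  · intro δ hδ hδh
    obtain ⟨ε, hε, hiso⟩ := Pool.Agent.H704R2.Action.isolated p1 (fun z _ => p2 z) p5 hδ hδh
    refine ⟨ε, hε, fun a _ ha θ' ψ m hψ => ?_⟩
    exact hiso a ha θ' ψ m (by have := hψ.two_le; omega) hψ.holomorphic hψ.periodic hψ.invariant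

end Pool.Agent.Results.MP_77fc3d_an.NoNearbyRings
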